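import Mathlib
import Pool.Agent.H321R2.CL.Form

set_option autoImplicit false

namespace Pool.Agent.Results.MP_1ae330_nt.TwelveVariables

/-- There is a cubic form over the rational numbers in 12 variables that does not vanish
identically on any two-dimensional subspace. -/
theorem result : ∃ F : MvPolynomial (Fin 12) ℚ, F.IsHomogeneous 3 ∧ F ≠ 0 ∧
    ∀ W : Submodule ℚ (Fin 12 → ℚ), Module.finrank ℚ W = 2 →
      ∃ v ∈ W, MvPolynomial.eval v F ≠ 0 :=
  Pool.Agent.H321R2.CL.rational

end Pool.Agent.Results.MP_1ae330_nt.TwelveVariables
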